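import Pool.Agent.H53.GX.Targets

/-!
Board gm3_modules, row REBX: correctness of the reduction, from assignments to colourings.
-/

set_option autoImplicit false
set_option linter.unusedVariables false

namespace Pool.Agent.H70.GX

open Pool.Agent.H68.BP Pool.Agent.H58.SF Pool.Agent.H53.GC Pool.Agent.H53.GR
open Pool.Agent.H53.GM Pool.Agent.H53.GX
open Classical

/-- ranks -/
theorem exists_rank {n m : ℕ} (z : Fin m → Fin n) :
    ∃ t : Fin m → Fin m, ∀ a b, z a ≤ z b ↔ t a ≤ t b := by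
  set S : Finset (Fin n) := Finset.univ.image z with hS
  have hcard : S.card ≤ m := by
    refine Finset.card_image_le.trans ?_
    rw [Finset.card_univ, Fintype.card_fin]
  have hmem : ∀ a, z a ∈ S := fun a => Finset.mem_image_of_mem z (Finset.mem_univ a)
  refine ⟨fun a => Fin.castLE hcard ((S.orderIsoOfFin rfl).symm ⟨z a, hmem a⟩), fun a b => ?_⟩
  rw [Fin.castLE_le_castLE_iff, OrderIso.le_iff_le]
  exact Iff.rfl

section

variable {τ σ : Sig} {N : ℕ} {J J' : Type}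

/-- `rse e P` is determined by `rs u P` if `e` is in the range of `u`. -/
theorem rse_sub_of_rs (u : J' → J) (e : Finset J) (he : ∀ i ∈ e, ∃ i', u i' = i)
    (P P' : Ty τ N J) (h : Pool.Agent.H53.GM.rs u P ⊆ Pool.Agent.H53.GM.rs u P') :
    rse e P ⊆ rse e P' := by
  rintro ⟨D, ρ⟩ ⟨h1, h2⟩
  have h3 : ∀ v : Fin N, ∃ o : Option J', o.map u = ρ v := by
    intro v
    rcases hv : ρ v with _ | i
    · exact ⟨none, rfl⟩
    · obtain ⟨i', hi'⟩ := he i (h2 v i hv)
      exact ⟨some i', by rw [Option.map_some, hi']⟩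
  choose ρ' hρ' using h3
  have h4 : (D, ρ') ∈ Pool.Agent.H53.GM.rs u P := by
    show (D, fun v => (ρ' v).map u) ∈ P
    rw [funext hρ']
    exact h1
  have h5 : (D, fun v => (ρ' v).map u) ∈ P' := h h4
  rw [funext hρ'] at h5
  exact ⟨h5, h2⟩

theorem rse_eq_of_rs (u : J' → J) (e : Finset J) (he : ∀ i ∈ e, ∃ i', u i' = i)
    (P P' : Ty τ N J) (h : Pool.Agent.H53.GM.rs u P = Pool.Agent.H53.GM.rs u P') :
    rse e P = rse e P' :=
  Set.Subset.antisymm (rse_sub_of_rs u e he P P' h.subset) (rse_sub_of_rs u e he P' P h.symm.subset)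

/-- pieces without roots have no atoms -/
theorem rse_empty {W : Type} (M : Str τ W) (a : J → W) (w : W) :
    rse ∅ (tp N M a) = {q : Str τ (Fin N) × (Fin N → Option J) |
      (∀ l z, ¬ q.1 l z) ∧ ∀ v i, q.2 v ≠ some i} := by
  ext q
  constructor
  · rintro ⟨⟨h1, h2⟩, h3⟩
    have h4 : ∀ v i, q.2 v ≠ some i := fun v i hv => absurd (h3 v i hv) (Finset.notMem_empty i)
    refine ⟨fun l z hz => ?_, h4⟩
    obtain ⟨v, -, hv⟩ := h1 Set.univ (fun l z _ _ i => Set.mem_univ _)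
      ⟨l, z, hz, fun i => Set.mem_univ _⟩
    rcases hv' : q.2 v with _ | i
    · exact hv hv'
    · exact h4 v i hv'
  · rintro ⟨h1, h2⟩
    refine ⟨⟨?_, fun _ => w, fun l z hz => absurd hz (h1 l z), fun v i hv => absurd hv (h2 v i)⟩,
      fun v i hv => absurd hv (h2 v i)⟩
    rintro S - ⟨l, z, hz, -⟩
    exact absurd hz (h1 l z)

end

section

variable {τ σ : Sig} {N n : ℕ} {F : Set (Str τ (Fin N))} {Al : Fin σ.m → Fin τ.m → Prop}
  {𝕏 : Str σ (Fin n)} {q : (j : Fin N) → (Fin (j + 1) → Fin (n + N)) → DmG τ N}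

/-- the hypothesis on the assignment -/
def Asg (F : Set (Str τ (Fin N))) (Al : Fin σ.m → Fin τ.m → Prop) (𝕏 : Str σ (Fin n))
    (q : (j : Fin N) → (Fin (j + 1) → Fin (n + N)) → DmG τ N) : Prop :=
  ∀ (s : Option (Fin σ.m)) (y : Fin (arP σ N s) → Fin (n + N))
    (t : Fin (arP σ N s) → Fin (arP σ N s)), relP (pls 𝕏 N) N s y →
    (∀ a b, y a ≤ y b ↔ t a ≤ t b) → FmX F Al s t (fun p => q p.1 (fun i => y (p.2 i)))

/-- the types of the subsets of a set -/
theorem step (hq : Asg F Al 𝕏 q) (g : Finset (Fin n)) (j : Fin N) (hj : g.card = j + 1) :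
    ∃ (W : Type) (_ : Finite W) (M : Str τ W) (x : Fin (j + 1) → W), Val F M ∧
      ∀ (j' : Fin N) (β : Fin (j' + 1) → Fin (j + 1)), StrictMono β →
        q j' (fun i => Fin.castAdd N (g.orderEmbOfFin hj (β i))) =
          ⟨j', tp N M (fun i => x (β i))⟩ := by
  obtain ⟨y, hy⟩ : ∃ y : Fin N → Fin (n + N), y = fun a : Fin N =>
    if h : (a : ℕ) < (j : ℕ) + 1 then Fin.castAdd N (g.orderEmbOfFin hj ⟨(a : ℕ), h⟩)
      else Fin.natAdd n a := ⟨_, rfl⟩
  have hmono : StrictMono y := by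
    intro a b hab
    have hab' : a.1 < b.1 := hab
    rw [hy]
    dsimp only
    by_cases ha : (a : ℕ) < (j : ℕ) + 1
    · by_cases hb : (b : ℕ) < (j : ℕ) + 1
      · rw [dif_pos ha, dif_pos hb, Fin.lt_def, Fin.val_castAdd, Fin.val_castAdd]
        exact (g.orderEmbOfFin hj).strictMono (Fin.lt_def.2 hab')
      · rw [dif_pos ha, dif_neg hb, Fin.lt_def, Fin.val_castAdd, Fin.val_natAdd]
        exact lt_of_lt_of_le (Fin.is_lt _) (Nat.le_add_right _ _)
    · have hb : ¬ (b : ℕ) < (j : ℕ) + 1 := fun hb => ha (hab'.trans hb)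
      rw [dif_neg ha, dif_neg hb, Fin.lt_def, Fin.val_natAdd, Fin.val_natAdd]
      omega
  obtain ⟨W, hW, M, x, hV, -, -, hx⟩ := hq none y (fun a => a) trivial
    (fun a b => hmono.le_iff_le)
  have hjN : (j : ℕ) + 1 ≤ N := j.2
  refine ⟨W, hW, M, fun i => x (Fin.castLE hjN i), hV, fun j' β hβ => ?_⟩
  have h2 := hx j' (fun i => Fin.castLE hjN (β i)) (fun a b hab => hβ hab)
  have h3 : (fun i => y (Fin.castLE hjN (β i))) =
      fun i => Fin.castAdd N (g.orderEmbOfFin hj (β i)) := by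
    funext i
    rw [hy]
    exact dif_pos (β i).2
  have h4 : q j' (fun i => y (Fin.castLE hjN (β i))) =
      ⟨j', tp N M (fun i => x (Fin.castLE hjN (β i)))⟩ := h2
  rw [h3] at h4
  exact h4

/-- the type of a set -/
theorem exists_P (hTPB : Pool.Agent.H53.GM.T_TPB) (hq : Asg F Al 𝕏 q)
    (g : Finset (Fin n)) (h1 : g.Nonempty) (h2 : g.card ≤ N) :
    ∃ P : Ty τ N (Fin n), Rl F P ∧ ∀ (j : Fin N) (hj : g.card = j + 1),
      q j (fun i => Fin.castAdd N (g.orderEmbOfFin hj i)) =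
        ⟨j, Pool.Agent.H53.GM.rs (fun i => g.orderEmbOfFin hj i) P⟩ := by
  have h3 := h1.card_pos
  obtain ⟨j, hj⟩ : ∃ j : Fin N, g.card = (j : ℕ) + 1 := ⟨⟨g.card - 1, by omega⟩, by
      show g.card = g.card - 1 + 1
      omega⟩
  obtain ⟨W, hW, M, x, hV, hx⟩ := step hq g j hj
  have h5 := hx j (fun i => i) (fun a b hab => hab)
  obtain ⟨x', hx'⟩ : ∃ x' : Fin n → W, ∀ i, x' (g.orderEmbOfFin hj i) = x i :=
    ⟨Function.extend (g.orderEmbOfFin hj) x (fun _ => x 0), fun i =>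
      (g.orderEmbOfFin hj).injective.extend_apply x _ i⟩
  refine ⟨tp N M x', ⟨W, hW, M, x', hV, rfl⟩, fun j' hj' => ?_⟩
  have h8 : j' = j := Fin.ext (by omega)
  subst h8
  rw [← (hTPB τ N W W _ _ M M x').2.1 (fun i => g.orderEmbOfFin hj i)]
  have h9 : (fun i => x' (g.orderEmbOfFin hj i)) = fun i => x i := funext hx'
  rw [h9]
  exact h5

/-- consistency of the types -/
theorem P_cons (hTPB : Pool.Agent.H53.GM.T_TPB) (hq : Asg F Al 𝕏 q)
    (g g' : Finset (Fin n)) (h1 : g'.Nonempty) (h2 : g.card ≤ N) (hs : g' ⊆ g)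
    (P P' : Ty τ N (Fin n))
    (hP : ∀ (j : Fin N) (hj : g.card = j + 1),
      q j (fun i => Fin.castAdd N (g.orderEmbOfFin hj i)) =
        ⟨j, Pool.Agent.H53.GM.rs (fun i => g.orderEmbOfFin hj i) P⟩)
    (hP' : ∀ (j : Fin N) (hj : g'.card = j + 1),
      q j (fun i => Fin.castAdd N (g'.orderEmbOfFin hj i)) =
        ⟨j, Pool.Agent.H53.GM.rs (fun i => g'.orderEmbOfFin hj i) P'⟩) :
    rse g' P = rse g' P' := by
  have h3 := h1.card_pos
  have h4 := Finset.card_le_card hs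
  obtain ⟨j, hj⟩ : ∃ j : Fin N, g.card = (j : ℕ) + 1 := ⟨⟨g.card - 1, by omega⟩, by
      show g.card = g.card - 1 + 1
      omega⟩
  obtain ⟨j', hj'⟩ : ∃ j' : Fin N, g'.card = (j' : ℕ) + 1 := ⟨⟨g'.card - 1, by omega⟩, by
      show g'.card = g'.card - 1 + 1
      omega⟩
  obtain ⟨W, hW, M, x, hV, hx⟩ := step hq g j hj
  have h5 : ∀ i : Fin (j' + 1), ∃ i' : Fin (j + 1),
      g.orderEmbOfFin hj i' = g'.orderEmbOfFin hj' i := by
    intro i
    have h6 : g'.orderEmbOfFin hj' i ∈ Set.range (g.orderEmbOfFin hj) := by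
      rw [Finset.range_orderEmbOfFin]
      exact Finset.mem_coe.2 (hs (Finset.orderEmbOfFin_mem g' hj' i))
    exact h6
  choose β hβ using h5
  have hβm : StrictMono β := by
    intro a b hab
    have h6 := (g'.orderEmbOfFin hj').strictMono hab
    rw [← hβ a, ← hβ b] at h6
    exact (g.orderEmbOfFin hj).lt_iff_lt.1 h6
  have e1 := hx j (fun i => i) (fun a b hab => hab)
  rw [hP j hj] at e1
  have e2 : Pool.Agent.H53.GM.rs (fun i => g.orderEmbOfFin hj i) P = tp N M (fun i => x i) :=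
    eq_of_heq (Sigma.mk.inj e1).2
  have e3 := hx j' β hβm
  have e4 : (fun i => Fin.castAdd N (g.orderEmbOfFin hj (β i))) =
      fun i => Fin.castAdd N (g'.orderEmbOfFin hj' i) := funext fun i => by rw [hβ i]
  rw [e4, hP' j' hj'] at e3
  have e5 : Pool.Agent.H53.GM.rs (fun i => g'.orderEmbOfFin hj' i) P' =
      tp N M (fun i => x (β i)) := eq_of_heq (Sigma.mk.inj e3).2
  have e6 : tp N M (fun i => x (β i)) = Pool.Agent.H53.GM.rs β (tp N M x) :=
    (hTPB τ N W W _ _ M M x).2.1 β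
  have e7 : Pool.Agent.H53.GM.rs (fun i => g'.orderEmbOfFin hj' i) P =
      Pool.Agent.H53.GM.rs β (Pool.Agent.H53.GM.rs (fun i => g.orderEmbOfFin hj i) P) := by
    rw [rs_rs]
    exact congrArg (fun u => Pool.Agent.H53.GM.rs u P) (funext fun i => (hβ i).symm)
  refine rse_eq_of_rs (fun i => g'.orderEmbOfFin hj' i) g' (fun i hi => ?_) P P' ?_
  · have h6 : i ∈ Set.range (g'.orderEmbOfFin hj') := by
      rw [Finset.range_orderEmbOfFin]
      exact Finset.mem_coe.2 hi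
    exact h6
  · rw [e7, e2, e5, e6]

end

theorem im_id {X : Type} (d : DecidableEq X) (g : Finset X) :
    @Finset.image X X d (fun x => x) g = g := Finset.image_id'

theorem pf_REBX (hB2X : Pool.Agent.H53.GX.T_B2X) (hTPB : Pool.Agent.H53.GM.T_TPB)
    (hATM : Pool.Agent.H53.GM.T_ATM) : Pool.Agent.H53.GX.T_REBX := by
  intro τ σ N F Al hF n 𝕏 q hq
  replace hq : Asg F Al 𝕏 q := hq
  have hN := hF.pos
  rcases Nat.eq_zero_or_pos n with hn | hn
  · subst hn
    refine ⟨fun _ _ => False, fun D hD f => ((f ⟨0, hN⟩).elim0 : _), fun l z hz => ?_⟩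
    obtain ⟨t, ht⟩ := exists_rank (fun i => Fin.castAdd N (z i))
    obtain ⟨W, hW, M, x, -, ⟨c, -, h, -⟩, -⟩ := hq (some l) (fun i => Fin.castAdd N (z i)) t
      ⟨z, hz, rfl⟩ ht
    have h1 := (hF.ar c).1
    rw [h] at h1
    exact (z ⟨0, h1⟩).elim0
  -- the types of the guards
  have hP : ∀ g : Finset (Fin n), ∃ P : Ty τ N (Fin n), g.Nonempty → g.card ≤ N → Rl F P ∧
      ∀ (j : Fin N) (hj : g.card = j + 1),
        q j (fun i => Fin.castAdd N (g.orderEmbOfFin hj i)) =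
          ⟨j, Pool.Agent.H53.GM.rs (fun i => g.orderEmbOfFin hj i) P⟩ := by
    intro g
    by_cases h : g.Nonempty ∧ g.card ≤ N
    · obtain ⟨P, hP⟩ := exists_P hTPB hq g h.1 h.2
      exact ⟨P, fun _ _ => hP⟩
    · exact ⟨∅, fun h1 h2 => absurd ⟨h1, h2⟩ h⟩
  choose P hP using hP
  -- uniqueness of the labels
  have huni : ∀ g g₁ g₂ : Finset (Fin n), g ⊆ g₁ → g ⊆ g₂ → g₁.Nonempty → g₂.Nonempty →
      g₁.card ≤ N → g₂.card ≤ N → rse g (P g₁) = rse g (P g₂) := by
    intro g g₁ g₂ h1 h2 hn1 hn2 hc1 hc2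
    rcases g.eq_empty_or_nonempty with hg | hg
    · subst hg
      obtain ⟨W, hW, M, a, -, ha⟩ := (hP g₁ hn1 hc1).1
      obtain ⟨W', hW', M', a', -, ha'⟩ := (hP g₂ hn2 hc2).1
      rw [← ha, ← ha', rse_empty M a (a ⟨0, hn⟩), rse_empty M' a' (a' ⟨0, hn⟩)]
    · have hc : g.card ≤ N := (Finset.card_le_card h1).trans hc1
      rw [P_cons hTPB hq g₁ g hg hc1 h1 _ _ (hP g₁ hn1 hc1).2 (hP g hg hc).2,
        P_cons hTPB hq g₂ g hg hc2 h2 _ _ (hP g₂ hn2 hc2).2 (hP g hg hc).2]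
  -- the system
  let C : Sy (Fin n) (Ty τ N (Fin n)) (Fin n) :=
    ⟨fun x => x, fun g t => ∃ g₁ : Finset (Fin n), g ⊆ g₁ ∧ g₁.Nonempty ∧ g₁.card ≤ N ∧
      t = rse g (P g₁)⟩
  have him : ∀ g : Finset (Fin n), g.image C.pt ∪ ∅ = g := by
    intro g
    rw [Finset.union_empty]
    exact Finset.image_id'
  have hC : IsSys (bX F ∅) C := by
    refine ⟨fun g κ _ a _ b _ hab => hab, ?_, ?_, ?_⟩
    · rintro g κ g' ⟨g₁, h1, h2, h3, rfl⟩ hs
      refine ⟨g₁, hs.trans h1, h2, h3, ?_⟩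
      refine (congrArg (fun e => rse e (rse g (P g₁))) ?_).trans (rse_rse hs _)
      rw [Finset.union_empty]
      exact im_id _ _
    · rintro g κ κ' ⟨g₁, h1, h2, h3, rfl⟩ ⟨g₂, h1', h2', h3', rfl⟩
      exact huni g g₁ g₂ h1 h1' h2 h2' h3 h3'
    · rintro g κ ⟨g₁, h1, h2, h3, rfl⟩
      refine ⟨Finset.disjoint_empty_right _, P g₁, (hP g₁ h2 h3).1, ?_⟩
      refine congrArg (fun e => rse e (P g₁)) ?_
      rw [Finset.union_empty]
      exact im_id _ _
  have hG : Gd0 F ∅ (Fin n) C := by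
    refine hB2X τ N n F ∅ hF (Fin n) C hC fun U hU => ?_
    obtain ⟨U', hU1, hU2, hU3⟩ : ∃ U' : Finset (Fin n), U ⊆ U' ∧ U'.Nonempty ∧ U'.card ≤ N := by
      rcases U.eq_empty_or_nonempty with h | h
      · exact ⟨{⟨0, hn⟩}, by rw [h]; exact Finset.empty_subset _, Finset.singleton_nonempty _,
          by rw [Finset.card_singleton]; exact hN⟩
      · exact ⟨U, Finset.Subset.refl _, h, hU⟩
    obtain ⟨W', hW', M', a', hV', ha'⟩ := (hP U' hU2 hU3).1
    refine ⟨W', hW', M', a', a', hV', ?_⟩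
    rintro g t ⟨⟨g₁, h1, h2, h3, rfl⟩, hgU⟩ b - hb
    show rse (g.image C.pt ∪ ∅) (tp N M' b) = _
    rw [him]
    have h4 : rse g (tp N M' b) = rse g (tp N M' a') :=
      (hTPB τ N W' W' _ (Fin 1) M' M' b).2.2.1 a' g hb
    have hgU' : g ⊆ U' := fun x hx => hU1 (Finset.mem_coe.1 (hgU x hx))
    rw [h4, ha', huni g U' g₁ hgU' h1 hU2 h2 hU3 h3]
  obtain ⟨W', hW', M', f, a, hV', hM'⟩ := hG
  refine ⟨fun l z => M' l (fun i => f (z i)), ?_, ?_⟩
  · exact Val.of_hom (f := f) hV' (fun l z hz => hz)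
  · intro l z hz
    obtain ⟨t, ht⟩ := exists_rank (fun i => Fin.castAdd N (z i))
    obtain ⟨W, hW, M, x, hV, ⟨c, hc, h, hMc⟩, hxt, hx⟩ := hq (some l)
      (fun i => Fin.castAdd N (z i)) t ⟨z, hz, rfl⟩ ht
    refine ⟨c, hc, h, ?_⟩
    have har := hF.ar c
    have har1 : 1 ≤ σ.ar l := h ▸ har.1
    have har2 : σ.ar l ≤ N := h ▸ har.2
    obtain ⟨e, he⟩ : ∃ e : Finset (Fin n), e = Finset.univ.image z := ⟨_, rfl⟩
    have hmem : ∀ w, w ∈ e ↔ ∃ i, z i = w := by
      intro w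
      rw [he, Finset.mem_image]
      exact ⟨fun ⟨i, _, h⟩ => ⟨i, h⟩, fun ⟨i, h⟩ => ⟨i, Finset.mem_univ i, h⟩⟩
    have hne : e.Nonempty := ⟨z ⟨0, har1⟩, (hmem _).2 ⟨_, rfl⟩⟩
    have hcard : e.card ≤ N := by
      rw [he]
      refine Finset.card_image_le.trans ?_
      rw [Finset.card_univ, Fintype.card_fin]
      exact har2
    have hpos := hne.card_pos
    obtain ⟨j, hj⟩ : ∃ j : Fin N, e.card = (j : ℕ) + 1 := ⟨⟨e.card - 1, by omega⟩, by
      show e.card = e.card - 1 + 1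
      omega⟩
    have h3 : ∀ i, ∃ i' : Fin (j + 1), e.orderEmbOfFin hj i' = z i := by
      intro i
      have h4 : z i ∈ Set.range (e.orderEmbOfFin hj) := by
        rw [Finset.range_orderEmbOfFin]
        exact Finset.mem_coe.2 ((hmem _).2 ⟨i, rfl⟩)
      exact h4
    choose ι hι using h3
    have h4 : ∀ i' : Fin (j + 1), ∃ i, z i = e.orderEmbOfFin hj i' := fun i' =>
      (hmem _).1 (Finset.orderEmbOfFin_mem e hj i')
    choose al hal using h4
    have hmono : StrictMono (fun i => t (al i)) := by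
      intro i i' hii
      have h5 : e.orderEmbOfFin hj i < e.orderEmbOfFin hj i' := (e.orderEmbOfFin hj).strictMono hii
      rw [← hal i, ← hal i'] at h5
      refine lt_of_not_ge fun h6 => ?_
      have h7 := (ht _ _).2 h6
      rw [Fin.le_def, Fin.val_castAdd, Fin.val_castAdd] at h7
      exact absurd h5 (not_lt.2 (Fin.le_def.2 h7))
    have e1 : q j (fun i => Fin.castAdd N (z (al i))) = ⟨j, tp N M (fun i => x (al i))⟩ :=
      hx j al hmono
    have e2 : (fun i => Fin.castAdd N (z (al i))) =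
        fun i => Fin.castAdd N (e.orderEmbOfFin hj i) := funext fun i => by rw [hal i]
    rw [e2, (hP e hne hcard).2 j hj] at e1
    have e3 : Pool.Agent.H53.GM.rs (fun i => e.orderEmbOfFin hj i) (P e) =
        tp N M (fun i => x (al i)) := eq_of_heq (Sigma.mk.inj e1).2
    have hxa : ∀ a : Fin (σ.ar l), x a = x (al (ι a)) := by
      intro a
      refine hxt a (al (ι a)) ?_
      have h5 : z a = z (al (ι a)) := by rw [hal, hι]
      refine le_antisymm ((ht _ _).1 ?_) ((ht _ _).1 ?_)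
      · rw [h5]
      · rw [h5]
    have h5 : M c (fun i => x (al (ι (Fin.cast h i)))) := by
      have h6 : (fun i => x (al (ι (Fin.cast h i)))) = fun i => x (Fin.cast h i) :=
        funext fun i => (hxa _).symm
      rw [h6]
      exact hMc
    have h6 : atm N c (fun i => ι (Fin.cast h i)) ∈ tp N M (fun i => x (al i)) :=
      (hATM τ N F W (Fin (j + 1)) M (fun i => x (al i)) c (fun i => ι (Fin.cast h i)) hF).2 h5
    rw [← e3] at h6
    have h7 : ((atm N c (fun i => ι (Fin.cast h i))).1, fun v =>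
        ((atm N c (fun i => ι (Fin.cast h i))).2 v).map (fun i => e.orderEmbOfFin hj i)) =
        atm N c (fun i => z (Fin.cast h i)) := by
      unfold atm
      refine Prod.ext rfl ?_
      funext v
      dsimp only
      by_cases hv : (v : ℕ) < τ.ar c
      · rw [dif_pos hv, dif_pos hv, Option.map_some, hι]
      · rw [dif_neg hv, dif_neg hv]
        rfl
    have h8 : atm N c (fun i => z (Fin.cast h i)) ∈ P e := by
      rw [← h7]
      exact h6
    have h9 : atm N c (fun i => z (Fin.cast h i)) ∈ rse e (P e) := by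
      refine ⟨h8, fun v i hv => ?_⟩
      unfold atm at hv
      dsimp only at hv
      by_cases hv' : (v : ℕ) < τ.ar c
      · rw [dif_pos hv'] at hv
        rw [← Option.some.inj hv]
        exact (hmem _).2 ⟨_, rfl⟩
      · rw [dif_neg hv'] at hv
        exact absurd hv (by simp)
    have h10 : rse (e.image C.pt ∪ ∅) (tp N M' f) = rse e (P e) :=
      hM' e _ ⟨e, Finset.Subset.refl _, hne, hcard, rfl⟩ f (fun v hv => absurd hv
        (Finset.notMem_empty v)) (fun v _ => rfl)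
    rw [him] at h10
    rw [← h10] at h9
    exact (hATM τ N F W' (Fin n) M' f c (fun i => z (Fin.cast h i)) hF).1 h9.1

end Pool.Agent.H70.GX
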